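import Pool.Agent.V11253.CPG.Main

/-!
MP_486437_lc: strongly CP-generic predicates in proper elementary extensions. Negative answer.
-/

set_option autoImplicit false

open FirstOrder FirstOrder.Language Pool.Agent.Helper227.EN Pool.Agent.H623R3.JC
open Pool.Agent.V11253.CPG

namespace Pool.Agent.Results.MP_486437_lc.NoExtension

/-- the inclusion of the languages -/
def emb : LA →ᴸ LU where
  onFunction := fun {_} f => f
  onRelation := fun {n} r => match n, r with
    | _, AR.lt => UR.lt

theorem emb_exp {M : Type} [LA.Structure M] (X : Set M) :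
    @LHom.IsExpansionOn _ _ emb M _ (expand M X) := by
  refine @LHom.IsExpansionOn.mk _ _ _ _ _ (expand M X) ?_ ?_
  · intro n f x
    rfl
  · intro n r x
    cases r
    rfl

theorem pa_transfer {M N : Type} [LA.Structure M] [LA.Structure N] (X : Set M) (Y : Set N)
    (f : @ElementaryEmbedding LU M N (expand M X) (expand N Y)) (h : M ⊨ PA) : N ⊨ PA := by
  let iM := expand M X
  let iN := expand N Y
  have e1 := emb_exp X
  have e2 := emb_exp Y
  rw [Theory.model_iff] at h ⊢
  intro φ hφ
  have h1 := h φ hφ
  have h2 : M ⊨ emb.onSentence φ := (LHom.realize_onSentence M emb φ).2 h1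
  have h3 : N ⊨ emb.onSentence φ := (f.map_sentence _).1 h2
  exact (LHom.realize_onSentence N emb φ).1 h3

theorem no_ext' {M N : Type} [CommSemiring M] [LinearOrder M] [IsStrictOrderedRing M]
    [CanonicallyOrderedAdd M] [LA.Structure M] [LA.Structure N] (hM : Compat M) (hPA : M ⊨ PA)
    (X : Set M) (Y : Set N) (hX : StronglyCPGeneric M X) (hY : StronglyCPGeneric N Y)
    (f : @ElementaryEmbedding LU M N (expand M X) (expand N Y))
    (h : (∀ k : M, ∃ n : ℕ, k = (n : M)) ∨ ∃ a : ℕ → M, Function.Surjective a ∧ C a ⊆ X ∧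
      ∀ (i : ℕ) (x : M), x ≠ a i → ∃ j : ℕ, tr (i : M) x (j : M) ∉ X) :
    Function.Surjective f := by
  have hN : N ⊨ PA := pa_transfer X Y f hPA
  have : Nonempty N := ⟨f 0⟩
  obtain ⟨_, _, _, _, hc⟩ := exists_alg N (Theory.Model.mono hN Set.subset_union_left)
  exact no_ext hM hc X Y hX hY f h

/-- **Strongly CP-generic expansions without proper strongly CP-generic elementary extensions.**
Every countable model `M` of `PA` has a strongly CP-generic `X ⊆ M` such that for no proper
elementary extension `(N, Y)` of `(M, X)` the set `Y` is strongly CP-generic in `N`; and for the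
standard model (every element is the value of a numeral) every strongly CP-generic `X` is like
that. -/
theorem result :
    (∀ (M : Type) [LA.Structure M] [Nonempty M] [Countable M], M ⊨ PA →
      ∃ X : Set M, StronglyCPGeneric M X ∧
        ∀ (N : Type) [LA.Structure N] (Y : Set N)
          (f : @ElementaryEmbedding LU M N (expand M X) (expand N Y)),
          StronglyCPGeneric N Y → Function.Surjective f) ∧
    (∀ (M : Type) [LA.Structure M] [Nonempty M], M ⊨ PA →
      (∀ x : M, ∃ n : ℕ, x = (num n : LA.Term Empty).realize default) →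
      ∀ X : Set M, StronglyCPGeneric M X →
        ∀ (N : Type) [LA.Structure N] (Y : Set N)
          (f : @ElementaryEmbedding LU M N (expand M X) (expand N Y)),
          StronglyCPGeneric N Y → Function.Surjective f) := by
  constructor
  · intro M iM _ _ hPA
    obtain ⟨_, _, _, _, hc⟩ := exists_alg M (Theory.Model.mono hPA Set.subset_union_left)
    by_cases hstd : ∀ k : M, ∃ n : ℕ, k = (n : M)
    · obtain ⟨X, _, hX, _⟩ := generic (M := M) ∅ (by
        intro n D hD hB F hF
        obtain ⟨B, hBD, hB⟩ := hB
        obtain ⟨τ, hτ⟩ := (spread_avoid B hB F hF).1.nonempty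
        exact ⟨τ, hBD hτ.1, hB.2.1 τ hτ.1, fun l => ⟨by simp, hτ.2 l⟩⟩)
        (κ := Empty) (fun k => k.elim) (fun k => k.elim)
      exact ⟨X, hX, fun N _ Y f hY => no_ext' hc hPA X Y hX hY f (Or.inl hstd)⟩
    · push Not at hstd
      obtain ⟨c, hcn⟩ := hstd
      have hns : ∃ x : M, ∀ n : ℕ, (n : M) < x := by
        rcases std_or hc c with ⟨n, hn⟩ | h
        · exact absurd hn (hcn n)
        · exact ⟨c, h⟩
      have hM : NPA M := ⟨hc, hPA, hns⟩
      obtain ⟨a, ha⟩ := exists_surjective_nat M
      obtain ⟨X, h1, hX, h3⟩ := generic (M := M) (C a) (fun n D hD hB F hF => key hM a n D hD hB F hF)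
        (κ := {p : ℕ × M // p.2 ≠ a p.1})
        (fun p => Set.range fun j : ℕ => tr (p.1.1 : M) p.1.2 (j : M)) (by
          rintro ⟨⟨i, x⟩, hx⟩
          have h4 : (Set.range fun j : ℕ => tr (i : M) x (j : M)) \ C a =
              Set.range fun j : ℕ => tr (i : M) x (j : M) := by
            refine Disjoint.sdiff_eq_left ?_
            rw [Set.disjoint_left]
            rintro _ ⟨j, rfl⟩ ⟨i', j', h5⟩
            obtain ⟨h6, h7, _⟩ := tr_inj hc h5
            have h8 : i = i' := Nat.cast_injective h6
            exact hx (by rw [h7, h8])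
          show ((Set.range fun j : ℕ => tr (i : M) x (j : M)) \ C a).Infinite
          rw [h4]
          refine Set.infinite_range_of_injective fun j j' h5 => ?_
          exact Nat.cast_injective (tr_inj hc h5).2.2)
      refine ⟨X, hX, fun N _ Y f hY => no_ext' hc hPA X Y hX hY f (Or.inr ⟨a, ha, h1, ?_⟩)⟩
      intro i x hx
      obtain ⟨_, ⟨j, rfl⟩, h5⟩ := h3 ⟨⟨i, x⟩, hx⟩
      exact ⟨j, h5⟩
  · intro M iM _ hPA hstd X hX N _ Y f hY
    obtain ⟨_, _, _, _, hc⟩ := exists_alg M (Theory.Model.mono hPA Set.subset_union_left)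
    refine no_ext' hc hPA X Y hX hY f (Or.inl fun k => ?_)
    obtain ⟨n, hn⟩ := hstd k
    refine ⟨n, hn.trans ?_⟩
    clear hn
    induction n with
    | zero =>
      rw [Nat.cast_zero, ← hc.zero]
      exact ea_t0 _
    | succ n ih =>
      rw [Nat.cast_succ, ← ih, ← hc.one, ← hc.add]
      have h1 : (num (n + 1) : LA.Term Empty).realize (default : Empty → M) =
        Structure.funMap (L := LA) AF.add ![(num n : LA.Term Empty).realize (default : Empty → M),
          (t1 : LA.Term Empty).realize (default : Empty → M)] := ea_tadd _ _ _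
      rw [h1, ea_t1]

end Pool.Agent.Results.MP_486437_lc.NoExtension
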